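import Pool.Agent.H43.CM.A.Iface
import Pool.Agent.H43.CM.D.Ind

/-!
# MP_7fe4b4_ag, job E0 : first properties of the ideals `Pid x v w = I_{x,w}/I_{x,v}`

* `mk_mem_Pid`: `VI (SS x v) ≤ VI (SS x w)` by `VI_le_of_ble`; the image under the quotient map of an ideal
  containing the kernel: `Ideal.mem_map_iff_of_surjective` or `Ideal.Quotient.mk` `Ideal.mem_quotient_iff_mem`.
* `pmnr_mem_Pid` (E1): by `mk_mem_Pid` it says `pmnr x v k ∈ VI (SS x w) ↔ ¬ ∀ i, rk w i k = rk v i k`.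
  `←`: some `i` has `rk w i k ≠ rk v i k`, and `rk w i k ≤ rk v i k` since `ble w v`, so `<`; by `aeval_pmnr` and `mnr_eq_zero` the
  minor vanishes on `SS x w`.  `→`: if `∀ i, rk w i k = rk v i k`, take `z ∈ SS x w`; `mnr_ne_zero` (with `w := v`, `v := w`,
  ranks equal) shows that the minor is nonzero at `z`.
* `Pid_le_iff`: `Pid x v w ≤ Pid x v w' ↔ VI (SS x w) ≤ VI (SS x w')`.  `←` of the statement: `VI_le_of_ble`.
  `→`: take `z ∈ SS x w'`; `∀ f ∈ VI (SS x w), aeval z f = 0`, so `ble w' w` by `ble_of_closure`.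
* `Pid_isPrime`: `CR (SS x w)` is a domain (`good_all`), so `VI (SS x w)` is prime
  (`Ideal.Quotient.isDomain_iff_prime`); `Ideal.map_isPrime_of_surjective` (the kernel of the quotient map is
  `VI (SS x v) ≤ VI (SS x w)`).
* `pmnr_ne_zero`: take `z ∈ SS x v`, `mnr_ne_zero`; so `pmnr x v k ∉ VI (SS x v)`.
-/

open MvPolynomial

noncomputable section

namespace CMT

variable {n : ℕ}

/-- `mk f ∈ P_w` iff `f ∈ I_w` (for `w ≤ v`) -/
theorem mk_mem_Pid {x v w : Equiv.Perm (Fin n)} (h : ble w v) (f : MvPolynomial (Low n) ℂ) :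
    Ideal.Quotient.mk (VI (SS x v)) f ∈ Pid x v w ↔ f ∈ VI (SS x w) := by
  exact Ideal.mem_quotient_iff_mem (VI_le_of_ble h)

/-- (E1) -/
theorem pmnr_mem_Pid {x v w : Equiv.Perm (Fin n)} (h : ble w v) (hne : (SS x w).Nonempty)
    (k : ℕ) (hk : k ≤ n) :
    Ideal.Quotient.mk (VI (SS x v)) (pmnr x v k hk) ∈ Pid x v w ↔ ¬ ∀ i, rk w i k = rk v i k := by
  rw [mk_mem_Pid h, mem_vanishingIdeal_iff]
  constructor
  · intro hall hrk
    obtain ⟨z, hz⟩ := hne
    have h1 := hall z hz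
    rw [aeval_pmnr] at h1
    exact mnr_ne_zero (v := w) (w := v) hz k hk (fun i => (hrk i).symm) h1
  · intro hrk z hz
    push Not at hrk
    obtain ⟨i, hi⟩ := hrk
    rw [aeval_pmnr]
    exact mnr_eq_zero (v := w) (w := v) hz k hk i (lt_of_le_of_ne (h i k) hi)

/-- `P_w ≤ P_{w'}` iff `w' ≤ w` -/
theorem Pid_le_iff {x v w w' : Equiv.Perm (Fin n)} (h : ble w v) (h' : ble w' v)
    (hne : (SS x w').Nonempty) : Pid x v w ≤ Pid x v w' ↔ ble w' w := by
  constructor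
  · intro hle
    obtain ⟨z, hz⟩ := hne
    refine ble_of_closure (x := x) (v := w) (w := w') (z := z) ?_ hz
    intro f hf
    have h1 : Ideal.Quotient.mk (VI (SS x v)) f ∈ Pid x v w' := hle ((mk_mem_Pid h f).2 hf)
    rw [mk_mem_Pid h', mem_vanishingIdeal_iff] at h1
    exact h1 z hz
  · intro hb
    exact Ideal.map_mono (VI_le_of_ble hb)

theorem Pid_isPrime {x v w : Equiv.Perm (Fin n)} (h : ble w v) (hne : (SS x w).Nonempty) :
    (Pid x v w).IsPrime := by
  have h1 : IsDomain (CR (SS x w)) := (good_all x w hne).1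
  have h2 : (VI (SS x w)).IsPrime := (Ideal.Quotient.isDomain_iff_prime _).1 h1
  unfold Pid
  refine Ideal.map_isPrime_of_surjective Ideal.Quotient.mk_surjective ?_
  rw [Ideal.mk_ker]
  exact VI_le_of_ble h

/-- `pmnr x v k ≠ 0` on `X_v` -/
theorem pmnr_ne_zero {x v : Equiv.Perm (Fin n)} (hne : (SS x v).Nonempty) (k : ℕ) (hk : k ≤ n) :
    Ideal.Quotient.mk (VI (SS x v)) (pmnr x v k hk) ≠ 0 := by
  rw [Ne, Ideal.Quotient.eq_zero_iff_mem, mem_vanishingIdeal_iff]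
  intro h
  obtain ⟨z, hz⟩ := hne
  have h1 := h z hz
  rw [aeval_pmnr] at h1
  exact mnr_ne_zero hz k hk (fun _ => rfl) h1

end CMT
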