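import Pool.Agent.H43.CM.F.E6

/-!
# MP_7fe4b4_ag, (E6) div_lemma
-/

noncomputable section

namespace CMT

/-- (E6), abstract -/
theorem div_lemma {R : Type} [CommRing R] [IsDomain R] [IsNoetherianRing R]
    [IsIntegrallyClosed R] {κ : Type} [Fintype κ] (Δ : κ → R) (hΔ : ∀ k, Δ k ≠ 0)
    {ι : Type} [Finite ι] (Q : ι → Ideal R) (hp : ∀ i, (Q i).IsPrime)
    (hh : ∀ i, (Q i).height = 1)
    (hQ : ∀ (P : Ideal R), P.IsPrime → P.height = 1 → ∀ k, Δ k ∈ P → ∃ i, P = Q i)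
    (hord : ∀ i k, Δ k ∈ Q i → ∀ h, h ∉ Q i → h * Δ k ∉ (Q i) ^ 2)
    (e : κ → ℤ)
    (he : ∀ i, ∑ k, (@ite ℤ (Δ k ∈ Q i) (Classical.propDecidable _) (e k) 0) = 1)
    (g : R) :
    (∀ i, g ∈ Q i) ↔ ∃ r, (∏ k, Δ k ^ (-e k).toNat) * g = (∏ k, Δ k ^ (e k).toNat) * r := by
  rw [← Ideal.mem_iInf]
  exact E6 Q hp hh Δ hΔ hQ hord e he g

end CMT
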