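import Pool.Agent.H43.CM.F.E6

/-!
# MP_7fe4b4_ag, job E-DivS : under the hypotheses of (E6) `f-` divides `f+`

Adaptation of the proof of `E6` in F/E6.lean (copy the `have key`): it is enough that `∏ Δ^(-e).toNat` divides `∏ Δ^(e).toNat`, by `N1`:
at a height one prime `Q' = Q i`: `v(f-) = a ≤ a + 1 = v(f+)`, so `s f+` is divisible by `f-` for some `s ∉ Q i`; at the other height one
primes `Q'`, no `Δ k` is in `Q'`, so `s = f- ∉ Q'` works.
-/

noncomputable section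

namespace CMT

/-- under the hypotheses of `div_lemma` `f-` divides `f+` -/
theorem div_surj {R : Type} [CommRing R] [IsDomain R] [IsNoetherianRing R]
    [IsIntegrallyClosed R] {κ : Type} [Fintype κ] (Δ : κ → R) (hΔ : ∀ k, Δ k ≠ 0)
    {ι : Type} [Finite ι] (Q : ι → Ideal R) (hp : ∀ i, (Q i).IsPrime)
    (hh : ∀ i, (Q i).height = 1)
    (hQ : ∀ (P : Ideal R), P.IsPrime → P.height = 1 → ∀ k, Δ k ∈ P → ∃ i, P = Q i)
    (hord : ∀ i k, Δ k ∈ Q i → ∀ h, h ∉ Q i → h * Δ k ∉ (Q i) ^ 2)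
    (e : κ → ℤ)
    (he : ∀ i, ∑ k, (@ite ℤ (Δ k ∈ Q i) (Classical.propDecidable _) (e k) 0) = 1)
    (r : R) :
    ∃ g, (∏ k, Δ k ^ (-e k).toNat) * g = (∏ k, Δ k ^ (e k).toNat) * r := by
  classical
  have key : ∀ i, ∃ v : R → ℕ∞, ∃ a : ℕ, (∀ x y, v (x * y) = v x + v y) ∧
      (∀ x, v x = 0 ↔ x ∉ Q i) ∧ (∀ x y, v x ≤ v y → ∃ s, s ∉ Q i ∧ x ∣ s * y) ∧
      v (∏ k, Δ k ^ (- e k).toNat) = a ∧ v (∏ k, Δ k ^ (e k).toNat) = a + 1 := by
    intro i
    have := hp i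
    obtain ⟨v, hm, hv1, hv0, hd, hu⟩ := E6_val (Q i) (hh i)
    have hvk : ∀ k, v (Δ k) = if Δ k ∈ Q i then 1 else 0 := by
      intro k
      split_ifs with h
      · exact hu (Δ k) h (hord i k h)
      · exact (hv0 _).2 h
    have hprod : ∀ n : κ → ℕ, v (∏ k, Δ k ^ n k)
        = ((∑ k, (if Δ k ∈ Q i then n k else 0) : ℕ) : ℕ∞) := by
      intro n
      rw [E6_prod v hm hv1]
      push_cast
      refine Finset.sum_congr rfl fun k _ => ?_
      rw [E6_pow v hm hv1, hvk]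
      split_ifs <;> simp
    refine ⟨v, ∑ k, (if Δ k ∈ Q i then (- e k).toNat else 0), hm, hv0, hd, hprod _, ?_⟩
    rw [hprod]
    have : (∑ k, (if Δ k ∈ Q i then (e k).toNat else 0) : ℕ) =
        (∑ k, (if Δ k ∈ Q i then (- e k).toNat else 0) : ℕ) + 1 := by
      have h := he i
      zify
      rw [← h, ← Finset.sum_add_distrib]
      refine Finset.sum_congr rfl fun k _ => ?_
      by_cases hk : Δ k ∈ Q i
      · simp only [if_pos hk]
        omega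
      · simp only [if_neg hk]
        rfl
    rw [this]
    push_cast
    rfl
  have hne : (∏ k, Δ k ^ (- e k).toNat) ≠ 0 :=
    Finset.prod_ne_zero_iff.2 fun k _ => pow_ne_zero _ (hΔ k)
  have hdvd : (∏ k, Δ k ^ (- e k).toNat) ∣ (∏ k, Δ k ^ (e k).toNat) := by
    refine N1 _ _ hne fun Q' hQ' hQ'1 => ?_
    by_cases hex : ∃ i, Q' = Q i
    · obtain ⟨i, rfl⟩ := hex
      obtain ⟨v, a, hm, hv0, hd, ha, hb⟩ := key i
      refine hd _ _ ?_
      rw [ha, hb]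
      exact le_self_add
    · refine ⟨∏ k, Δ k ^ (- e k).toNat, ?_, dvd_mul_right _ _⟩
      intro hc
      obtain ⟨k, -, hk⟩ := (hQ'.prod_mem_iff).1 hc
      exact hex (hQ Q' hQ' hQ'1 k (hQ'.mem_of_pow_mem _ hk))
  obtain ⟨c, hc⟩ := hdvd
  exact ⟨c * r, by rw [← mul_assoc, ← hc]⟩

end CMT
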