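import Pool.Agent.H43.CM.E.E0

/-!
# MP_7fe4b4_ag, job E2 : height one primes containing a minor `Δ_{v,k}` are the boundary divisors

Proof.  Let `A = MvPolynomial (Low n) ℂ`, `Q' = Q.comap mk` a prime ideal of `A` containing `VI (SS x v)` and
`pmnr x v k`.  By the Nullstellensatz (`MvPolynomial.IsPrime.vanishingIdeal_zeroLocus` /
`vanishingIdeal_zeroLocus_eq_radical`) `Q' = vanishingIdeal (zeroLocus Q')`.
Let `z` be a point of `zeroLocus Q'`.  `exists_cell x z`: `z ∈ SS x w` for some `w`.  As `z` kills `VI (SS x v) ≤ Q'`,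
`ble w v` (`ble_of_closure`).  `w ≠ v`, since for `w = v` the minor `pmnr x v k` is nonzero at `z` (`mnr_ne_zero`,
`aeval_pmnr`), but it lies in `Q'`.  By `exists_cov` there is `v'` with `ble w v'`, `cov v' v`.  So
`VI (SS x v') ≤ VI (SS x w)` (`VI_le_of_ble`) and `z` kills `VI (SS x v')`.
So: for every `z ∈ zeroLocus Q'` there is `v'` with `cov v' v` such that `z` kills `VI (SS x v')`.
Hence the finite product `∏ VI (SS x v')` over the finite set of `v'` with `cov v' v` is contained in
`vanishingIdeal (zeroLocus Q') = Q'` (an element of the product kills every such `z`), so by primality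
(`Ideal.IsPrime.prod_le` ) `VI (SS x v') ≤ Q'` for some `v'` with `cov v' v`.
`SS x v'` is nonempty: otherwise `VI (SS x v') = ⊤` and `Q' = ⊤`.
So `Pid x v v' ≤ Q`; `Pid x v v'` is prime (`Pid_isPrime`) and nonzero: `v' ≠ v` (lengths), so by
`ble_antisymm` some rank differs: there are `i k'` with `rk v' i k' ≠ rk v i k'`; (one may take `k' ≤ n`: for `k' ≥ n`,
`rk · i k' = rk · i n`; prove this small fact: the condition `j.val < k'` is automatic) so `mk (pmnr x v k') ∈ Pid x v v'`
(`pmnr_mem_Pid`) and it is nonzero (`pmnr_ne_zero`).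
As `Q` has height one and `R = CR (SS x v)` is a domain (`good_all`), a nonzero prime contained in `Q` is `Q`:
if `⊥ < P < Q` then `height Q ≥ 2` (`Ideal.height_strict_mono_of_is_prime...`, or: `P.height ≥ 1` as `P ≠ ⊥`, and
`P.height < Q.height`; search `Ideal.height_lt_of_lt`/`Ideal.height_strict_mono_of_isPrime`).
-/

open MvPolynomial

noncomputable section

namespace CMT

variable {n : ℕ}

/-- if all ranks `rk · i k`, `k ≤ n`, agree then the permutations are equal -/
theorem exists_rk_ne {v w : Equiv.Perm (Fin n)} (hne : v ≠ w) :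
    ∃ k ≤ n, ¬ ∀ i, rk v i k = rk w i k := by
  by_contra h
  push Not at h
  refine hne (eq_of_rk_eq fun i k => ?_)
  by_cases hk : k ≤ n
  · exact h k hk i
  · rw [rk_of_ge v i k (by omega), rk_of_ge w i k (by omega)]
    exact h n le_rfl i

/-- (E2) -/
theorem exists_cov_of_pmnr_mem {x v : Equiv.Perm (Fin n)} (hne : (SS x v).Nonempty)
    (Q : Ideal (CR (SS x v))) [Q.IsPrime] (hQ : Q.height = 1) (k : ℕ) (hk : k ≤ n)
    (hm : Ideal.Quotient.mk (VI (SS x v)) (pmnr x v k hk) ∈ Q) :
    ∃ w, cov w v ∧ (SS x w).Nonempty ∧ Q = Pid x v w := by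
  classical
  have hprime : (Q.comap (Ideal.Quotient.mk (VI (SS x v)))).IsPrime := Ideal.IsPrime.comap _
  have hVI : VI (SS x v) ≤ Q.comap (Ideal.Quotient.mk (VI (SS x v))) := by
    intro f hf
    show Ideal.Quotient.mk (VI (SS x v)) f ∈ Q
    rw [Ideal.Quotient.eq_zero_iff_mem.2 hf]
    exact Q.zero_mem
  have hz := MvPolynomial.IsPrime.vanishingIdeal_zeroLocus (K := ℂ)
    (Q.comap (Ideal.Quotient.mk (VI (SS x v))))
  have claim : ∀ z ∈ zeroLocus ℂ (Q.comap (Ideal.Quotient.mk (VI (SS x v)))),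
      ∃ v', cov v' v ∧ ∀ f ∈ VI (SS x v'), aeval z f = 0 := by
    intro z hz'
    obtain ⟨w, hw⟩ := exists_cell x z
    have h1 : ble w v := ble_of_closure (fun f hf => hz' f (hVI hf)) hw
    have h2 : w ≠ v := by
      rintro rfl
      refine mnr_ne_zero hw k hk (fun _ => rfl) ?_
      rw [← aeval_pmnr]
      exact hz' _ hm
    obtain ⟨v', h3, h4⟩ := exists_cov h1 h2
    exact ⟨v', h4, fun f hf => (mem_vanishingIdeal_iff.1 (VI_le_of_ble h3 hf)) z hw⟩
  have hprod : ∏ v' ∈ Finset.univ.filter (fun v' : Equiv.Perm (Fin n) => cov v' v),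
      VI (SS x v') ≤ Q.comap (Ideal.Quotient.mk (VI (SS x v))) := by
    rw [← hz]
    intro f hf
    rw [mem_vanishingIdeal_iff]
    intro z hz'
    obtain ⟨v', h1, h2⟩ := claim z hz'
    have h3 : ∏ u ∈ Finset.univ.filter (fun u : Equiv.Perm (Fin n) => cov u v),
        VI (SS x u) ≤ VI (SS x v') :=
      le_trans (Ideal.prod_le_inf (f := fun u : Equiv.Perm (Fin n) => VI (SS x u)))
        (Finset.inf_le (f := fun u : Equiv.Perm (Fin n) => VI (SS x u))
          (Finset.mem_filter.2 ⟨Finset.mem_univ v', h1⟩))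
    exact h2 f (h3 hf)
  obtain ⟨v', hv', hle⟩ := (Ideal.IsPrime.prod_le
    (f := fun u : Equiv.Perm (Fin n) => VI (SS x u)) hprime).1 hprod
  have hcov : cov v' v := (Finset.mem_filter.1 hv').2
  have hne' : (SS x v').Nonempty := by
    by_contra h
    rw [Set.not_nonempty_iff_eq_empty] at h
    refine hprime.ne_top ((Ideal.eq_top_iff_one _).2 (hle ?_))
    rw [mem_vanishingIdeal_iff, h]
    intro z hz'
    exact absurd hz' (Set.notMem_empty z)
  refine ⟨v', hcov, hne', ?_⟩
  have hPle : Pid x v v' ≤ Q := Ideal.map_le_iff_le_comap.2 hle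
  haveI hPp : (Pid x v v').IsPrime := Pid_isPrime hcov.1 hne'
  have hvne : v' ≠ v := by
    rintro rfl
    have := hcov.2
    omega
  have hPbot : (⊥ : Ideal (CR (SS x v))) < Pid x v v' := by
    rw [bot_lt_iff_ne_bot]
    intro hbot
    obtain ⟨k', hk', hk2⟩ := exists_rk_ne hvne
    have h1 := (pmnr_mem_Pid hcov.1 hne' k' hk').2 hk2
    rw [hbot] at h1
    exact pmnr_ne_zero hne k' hk' h1
  haveI : IsDomain (CR (SS x v)) := (good_all x v hne).1
  by_contra hcon
  have hlt : Pid x v v' < Q := lt_of_le_of_ne hPle (fun h => hcon h.symm)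
  have h1 : (Pid x v v').height < Q.height := Ideal.height_strict_mono_of_isPrime hlt
  have h2 : (⊥ : Ideal (CR (SS x v))).height < (Pid x v v').height :=
    Ideal.height_strict_mono_of_isPrime hPbot
  rw [hQ, ENat.lt_one_iff_eq_zero] at h1
  rw [h1] at h2
  exact not_lt_zero h2

end CMT
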