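import Pool.Agent.H43.CM.E.E2

/-!
# MP_7fe4b4_ag, job E3 : the boundary divisors are height one primes

Proof.  `w ≠ v` (`cov`: lengths differ), so by `exists_rk_ne` there is `k ≤ n` with `¬ ∀ i, rk w i k = rk v i k`;
let `Δ = mk (pmnr x v k)`.  `SS x v` is nonempty: `SS x w` nonempty gives a point; if `SS x v` were empty then
`VI (SS x v) = ⊤ ≤ VI (SS x w)` (`VI_le_of_ble`), but a point of `SS x w` shows `VI (SS x w) ≠ ⊤` (1 does not vanish).
`Δ ∈ P := Pid x v w` (`pmnr_mem_Pid`), `Δ ≠ 0` (`pmnr_ne_zero`), `P` prime (`Pid_isPrime`).  There is a prime `Q ≤ P` minimal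
over `span {Δ}` (`Ideal.exists_minimalPrimes_le`); by Krull's principal ideal theorem `Q.height ≤ 1`
(`Ideal.height_le_one_of_isPrincipal_of_mem_minimalPrimes` or similar, `CR` is Noetherian), and `Q ≠ ⊥` because `Δ ≠ 0`, so
`Q.height = 1` (domain: `Ideal.height` of a nonzero prime in a domain is `≥ 1`).
By E2 (`exists_cov_of_pmnr_mem`) `Q = Pid x v w'` with `cov w' v` and `SS x w'` nonempty.  `Pid x v w' ≤ Pid x v w` gives `ble w w'`
(`Pid_le_iff`), lengths are equal (`cov`), so `w = w'` (`eq_of_ble_of_len`), so `P = Q`.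
-/

open MvPolynomial

noncomputable section

namespace CMT

variable {n : ℕ}

theorem SS_nonempty_mono {x v w : Equiv.Perm (Fin n)} (h : ble w v) (hne : (SS x w).Nonempty) :
    (SS x v).Nonempty := by
  by_contra hempty
  rw [Set.not_nonempty_iff_eq_empty] at hempty
  obtain ⟨z, hz⟩ := hne
  have h1 : (1 : MvPolynomial (Low n) ℂ) ∈ VI (SS x v) := by
    rw [hempty]
    rw [MvPolynomial.mem_vanishingIdeal_iff]
    intro y hy
    exact absurd hy (Set.notMem_empty y)
  have h2 := VI_le_of_ble (x := x) h h1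
  rw [MvPolynomial.mem_vanishingIdeal_iff] at h2
  have h3 := h2 z hz
  simp at h3

theorem e3_isDomain {x v : Equiv.Perm (Fin n)} (hne : (SS x v).Nonempty) : IsDomain (CR (SS x v)) := by
  have h1 := Pid_isPrime (ble_refl v) hne
  have h2 : Pid x v v = ⊥ := by
    unfold Pid
    rw [Ideal.map_quotient_self]
  rw [h2] at h1
  have h3 : (Ideal.comap (Ideal.Quotient.mk (VI (SS x v))) ⊥).IsPrime := Ideal.comap_isPrime _ _
  have h4 : Ideal.comap (Ideal.Quotient.mk (VI (SS x v))) ⊥ = VI (SS x v) := by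
    have h5 := Ideal.mk_ker (I := VI (SS x v))
    rw [RingHom.ker_eq_comap_bot] at h5
    exact h5
  rw [h4] at h3
  exact (Ideal.Quotient.isDomain_iff_prime _).2 h3

/-- (E3) -/
theorem Pid_height {x v w : Equiv.Perm (Fin n)} (h : cov w v) (hne : (SS x w).Nonempty) :
    (Pid x v w).height = 1 := by
  have hvw : v ≠ w := by
    intro e
    have := h.2
    rw [e] at this
    omega
  obtain ⟨k, hk, hk'⟩ := exists_rk_ne hvw
  have hnev : (SS x v).Nonempty := SS_nonempty_mono h.1 hne
  have hdom : IsDomain (CR (SS x v)) := e3_isDomain hnev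
  have hmem : Ideal.Quotient.mk (VI (SS x v)) (pmnr x v k hk) ∈ Pid x v w := by
    rw [pmnr_mem_Pid h.1 hne]
    intro h3
    exact hk' (fun i => (h3 i).symm)
  have hprime : (Pid x v w).IsPrime := Pid_isPrime h.1 hne
  obtain ⟨Q, hQ, hQP⟩ := Ideal.exists_minimalPrimes_le
    (I := Ideal.span {Ideal.Quotient.mk (VI (SS x v)) (pmnr x v k hk)}) (J := Pid x v w)
    ((Ideal.span_singleton_le_iff_mem _).2 hmem)
  have hQprime : Q.IsPrime := hQ.1.1
  have hQmem : Ideal.Quotient.mk (VI (SS x v)) (pmnr x v k hk) ∈ Q :=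
    hQ.1.2 (Ideal.mem_span_singleton_self _)
  have hQ1 : Q.height ≤ 1 := Ideal.height_le_one_of_isPrincipal_of_mem_minimalPrimes _ Q hQ
  have hQ0 : Q.height ≠ 0 := by
    intro h4
    rw [Ideal.height_eq_zero_iff_eq_bot] at h4
    rw [h4] at hQmem
    exact pmnr_ne_zero hnev k hk (by simpa using hQmem)
  have hQh : Q.height = 1 := by
    apply le_antisymm hQ1
    exact Order.one_le_iff_ne_zero.2 hQ0
  obtain ⟨w', hw', hne', hQw⟩ := exists_cov_of_pmnr_mem hnev Q hQh k hk hQmem
  have hle : ble w w' := by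
    rw [← Pid_le_iff hw'.1 h.1 hne]
    rw [← hQw]
    exact hQP
  have hlen : len w = len w' := by
    have h5 := h.2
    have h6 := hw'.2
    omega
  have heq : w = w' := eq_of_ble_of_len hle hlen
  rw [heq, ← hQw]
  exact hQh

end CMT
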