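import Pool.Agent.H43.CM.E.E0

/-!
# MP_7fe4b4_ag, job E4 : `Δ_{v,k}` vanishes to order one along the boundary divisors

Proof.  `cov_iff`: `w = v * swap a b`, `a < b`, `v b < v a`.  So `v = w * swap a b` and `w a = v b < v a = w b`.
`¬ ∀ i, rk w i k = rk v i k`, so by `rk_swap_of_not_mem` we have `a.val < k` and `k ≤ b.val`.
Lift `g = mk G`.  `g ∉ Pid x v w` means `G ∉ VI (SS x w)` (`mk_mem_Pid`), so there is `z0 ∈ SS x w` with `aeval z0 G ≠ 0`.
`curve` (with `v' := w`) gives `φ : MvPolynomial (Low n) ℂ →+* PowerSeries ℂ` with `constantCoeff (φ f) = aeval z0 f`, `φ = 0` on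
`VI (SS x v)`, `coeff 1 (φ (pmnr x v k)) ≠ 0`.
Suppose `g * mk (pmnr x v k) ∈ (Pid x v w)^2`.  `(Pid x v w)^2 = (VI (SS x w))^2.map mk` (`Ideal.map_pow`), so
`G * pmnr x v k = a2 + b` with `a2 ∈ (VI (SS x w))^2` and `b ∈ VI (SS x v)` (kernel of the quotient map).
Apply `φ`: `φ G * φ (pmnr) = φ a2`.  For `f ∈ VI (SS x w)` the constant coefficient of `φ f` is `aeval z0 f = 0`, i.e.
`φ f ∈ span {X}`; so `VI (SS x w) ≤ comap φ (span {X})` and `φ a2 ∈ (span {X})^2 = span {X^2}`; so the coefficient of `X^1` of `φ a2`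
is `0` (`PowerSeries.X_pow_dvd_iff`).  On the other hand `coeff 1 (φ G * φ pmnr) = coeff 0 (φ G) * coeff 1 (φ pmnr) +
coeff 1 (φ G) * coeff 0 (φ pmnr)`, `coeff 0 (φ pmnr) = aeval z0 (pmnr x v k) = mnr v k (x z0) = 0` (`mnr_eq_zero`, since
`rk w (v a) k < rk v (v a) k` by `rk_swap_of_mem`), `coeff 0 (φ G) ≠ 0`, `coeff 1 (φ pmnr) ≠ 0`: contradiction.
-/

open MvPolynomial

noncomputable section

namespace CMT

variable {n : ℕ}

/-- (E4) -/
theorem pmnr_order_one {x v w : Equiv.Perm (Fin n)} (h : cov w v) (hne : (SS x w).Nonempty)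
    (k : ℕ) (hk : k ≤ n) (hw : ¬ ∀ i, rk w i k = rk v i k)
    (g : CR (SS x v)) (hg : g ∉ Pid x v w) :
    g * Ideal.Quotient.mk (VI (SS x v)) (pmnr x v k hk) ∉ (Pid x v w) ^ 2 := by
  obtain ⟨a, b, hab, hwv, hba, -⟩ := cov_iff.mp h
  have hk' : a.val < k ∧ k ≤ b.val := by
    by_contra hcon
    apply hw
    intro i
    rw [hwv]
    exact rk_swap_of_not_mem hab k hcon i
  have hvw : w * Equiv.swap a b = v := by
    rw [hwv, mul_assoc, Equiv.swap_mul_self, mul_one]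
  have hwab : w a < w b := by
    rw [hwv]
    simpa [Equiv.Perm.mul_apply, Equiv.swap_apply_left, Equiv.swap_apply_right] using hba
  have hrk : rk w (v a).val k < rk v (v a).val k := by
    rw [hwv]
    exact rk_swap_of_mem hab hba k hk'.1 hk'.2
  obtain ⟨G, rfl⟩ := Ideal.Quotient.mk_surjective g
  have hG : G ∉ VI (SS x w) := fun hG => hg (Ideal.mem_map_of_mem _ hG)
  rw [mem_vanishingIdeal_iff] at hG
  push Not at hG
  obtain ⟨z0, hz0, hG0⟩ := hG
  obtain ⟨-, φ, h1, h2, h3⟩ := curve hab hwab hz0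
  rw [hvw] at h2
  have h3' := h3 k hk hk'.1 hk'.2
  rw [hvw] at h3'
  intro hmem
  have hpow : (Pid x v w) ^ 2 = ((VI (SS x w)) ^ 2).map (Ideal.Quotient.mk (VI (SS x v))) := by
    unfold Pid
    rw [Ideal.map_pow]
  rw [hpow, ← map_mul] at hmem
  obtain ⟨a2, ha2, hab2⟩ := (Ideal.mem_map_iff_of_surjective _
    Ideal.Quotient.mk_surjective).mp hmem
  have hb : G * pmnr x v k hk - a2 ∈ VI (SS x v) := by
    rw [← Ideal.Quotient.eq, hab2]
  have hφ : φ G * φ (pmnr x v k hk) = φ a2 := by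
    have := h2 _ hb
    rw [map_sub, map_mul, sub_eq_zero] at this
    exact this
  have hle : VI (SS x w) ≤ (Ideal.span {(PowerSeries.X : PowerSeries ℂ)}).comap φ := by
    intro f hf
    rw [Ideal.mem_comap, Ideal.mem_span_singleton, PowerSeries.X_dvd_iff, h1]
    exact (mem_vanishingIdeal_iff.mp hf) z0 hz0
  have ha2' : φ a2 ∈ Ideal.span {(PowerSeries.X : PowerSeries ℂ) ^ 2} := by
    have h4 : (VI (SS x w)) ^ 2 ≤ ((Ideal.span {(PowerSeries.X : PowerSeries ℂ)}) ^ 2).comap φ :=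
      (Ideal.pow_right_mono hle 2).trans (Ideal.le_comap_pow φ 2)
    have h5 := h4 ha2
    rw [Ideal.mem_comap, Ideal.span_singleton_pow] at h5
    exact h5
  rw [Ideal.mem_span_singleton, PowerSeries.X_pow_dvd_iff] at ha2'
  have hc : PowerSeries.coeff 1 (φ a2) = 0 := ha2' 1 (by norm_num)
  rw [← hφ, PowerSeries.coeff_mul] at hc
  have hc0 : PowerSeries.coeff 0 (φ (pmnr x v k hk)) = 0 := by
    rw [PowerSeries.coeff_zero_eq_constantCoeff_apply, h1, aeval_pmnr]
    exact mnr_eq_zero hz0 k hk _ hrk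
  have hanti : (Finset.HasAntidiagonal.antidiagonal 1 : Finset (ℕ × ℕ)) = {(0, 1), (1, 0)} := by decide
  rw [hanti, Finset.sum_insert (by decide), Finset.sum_singleton, hc0, mul_zero, add_zero,
    PowerSeries.coeff_zero_eq_constantCoeff_apply, h1] at hc
  rcases mul_eq_zero.mp hc with h6 | h6
  · exact hG0 h6
  · exact h3' h6

end CMT
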