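import Pool.Agent.H43.CM.E.E0
import Pool.Agent.H43.CM.E.E2
import Pool.Agent.H43.CM.E.E3
import Pool.Agent.H43.CM.E.E4
import Pool.Agent.H43.CM.E.Div
import Pool.Agent.H43.CM.E.DivS
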